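import Pool.Agent.W558.WT.Stms

set_option autoImplicit false

universe u

namespace Pool.Agent.W382.WT.Art

open Pool.Agent.W558

theorem main : WT_art.{u} := by
  intro k B _ _ _ hft A hint
  have h1 : Algebra.FiniteType A B := Algebra.FiniteType.of_restrictScalars_finiteType k A B
  have h2 : Algebra.IsIntegral A B := ⟨hint⟩
  have h3 : Module.Finite A B := Algebra.IsIntegral.finite
  exact ⟨fg_of_fg_of_fg k A B hft.out h3.fg_top Subtype.val_injective⟩

end Pool.Agent.W382.WT.Art
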